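import Pool.Agent.U64.SZ.Latt

/-!
# Powers of `7` and `13` modulo powers of `3`
-/

set_option autoImplicit false

open Real

namespace Pool.Agent.U64.SZ

theorem seven_pow (m : ℕ) : ∃ c : ℤ, (7 : ℤ) ^ 3 ^ m = 1 + 3 ^ (m + 1) * (2 + 3 * c) := by
  induction m with
  | zero => exact ⟨0, by norm_num⟩
  | succ m ih =>
    obtain ⟨c, hc⟩ := ih
    refine ⟨c + 3 ^ m * (2 + 3 * c) ^ 2 + 3 ^ (2 * m) * (2 + 3 * c) ^ 3, ?_⟩
    rw [pow_succ 3 m, pow_mul, hc]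
    ring

/-- exponents congruent modulo `3 ^ m` -/
theorem pow_congr {m a a' : ℕ} (h : (3 : ℤ) ^ m ∣ (a : ℤ) - a') :
    (3 : ℤ) ^ (m + 1) ∣ 7 ^ a - 7 ^ a' := by
  wlog hle : a' ≤ a generalizing a a'
  · have h1 := this (a := a') (a' := a) (by
      have e : (a' : ℤ) - a = -((a : ℤ) - a') := by ring
      rw [e]; exact (dvd_neg).mpr h) (by omega)
    have e : (7 : ℤ) ^ a - 7 ^ a' = -(7 ^ a' - 7 ^ a) := by ring
    rw [e]; exact (dvd_neg).mpr h1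
  obtain ⟨k, rfl⟩ := Nat.exists_eq_add_of_le hle
  have h1 : (3 ^ m : ℕ) ∣ k := by
    have e : ((a' + k : ℕ) : ℤ) - a' = k := by push_cast; ring
    rw [e] at h
    exact_mod_cast h
  obtain ⟨j, rfl⟩ := h1
  obtain ⟨c, hc⟩ := seven_pow m
  have h2 : (7 : ℤ) ^ 3 ^ m - 1 ∣ (7 ^ 3 ^ m) ^ j - 1 ^ j := sub_dvd_pow_sub_pow _ _ _
  rw [one_pow] at h2
  have h3 : (3 : ℤ) ^ (m + 1) ∣ 7 ^ 3 ^ m - 1 := ⟨2 + 3 * c, by rw [hc]; ring⟩
  have e : (7 : ℤ) ^ (a' + 3 ^ m * j) - 7 ^ a' = 7 ^ a' * ((7 ^ 3 ^ m) ^ j - 1) := by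
    rw [pow_add, pow_mul]; ring
  rw [e]
  exact Dvd.dvd.mul_left (h3.trans h2) _

theorem seven_mod (t : ℕ) : ∃ r : ℤ, (7 : ℤ) ^ t = 1 + 3 * r := by
  induction t with
  | zero => exact ⟨0, by norm_num⟩
  | succ t ih =>
    obtain ⟨r, hr⟩ := ih
    exact ⟨2 + 7 * r, by rw [pow_succ, hr]; ring⟩

/-- lifting a solution of `7 ^ t = u` -/
theorem lift_step {u : ℤ} {m t : ℕ} (h : (3 : ℤ) ^ (m + 1) ∣ 7 ^ t - u) :
    ∃ t' : ℕ, (3 : ℤ) ^ (m + 2) ∣ 7 ^ t' - u ∧ (3 : ℤ) ^ m ∣ (t' : ℤ) - t := by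
  obtain ⟨e, he⟩ := h
  obtain ⟨c, hc⟩ := seven_pow m
  have key : ∀ s : ℕ, ∀ e : ℤ, (7 : ℤ) ^ s - u = 3 ^ (m + 1) * e →
      ∃ z : ℤ, (7 : ℤ) ^ (s + 3 ^ m) - u = 3 ^ (m + 1) * (e + 2 + 3 * z) := by
    intro s e he
    obtain ⟨r, hr⟩ := seven_mod s
    refine ⟨c + r * (2 + 3 * c), ?_⟩
    rw [pow_add, hc]
    rw [hr] at he ⊢
    linear_combination he
  obtain ⟨z1, h1⟩ := key t e he
  obtain ⟨z2, h2⟩ := key _ _ h1
  have e0 : e % 3 = 0 ∨ e % 3 = 1 ∨ e % 3 = 2 := by omega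
  rcases e0 with h0 | h0 | h0
  · refine ⟨t, ?_, by simp⟩
    rw [he, pow_succ (3 : ℤ) (m + 1)]
    exact mul_dvd_mul_left _ (by omega)
  · refine ⟨t + 3 ^ m, ?_, by simp⟩
    rw [h1, pow_succ (3 : ℤ) (m + 1)]
    exact mul_dvd_mul_left _ (by omega)
  · refine ⟨t + 3 ^ m + 3 ^ m, ?_, ?_⟩
    · rw [h2, pow_succ (3 : ℤ) (m + 1)]
      exact mul_dvd_mul_left _ (by omega)
    · exact ⟨2, by push_cast; ring⟩

/-- the `3`-adic logarithm of `u` to the base `7` -/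
theorem exists_log {u : ℤ} (hu : (3 : ℤ) ∣ 1 - u) :
    ∃ t : ℕ → ℕ, (∀ m, (3 : ℤ) ^ (m + 1) ∣ 7 ^ t m - u) ∧
      ∀ m, (3 : ℤ) ^ m ∣ (t (m + 1) : ℤ) - t m := by
  have h0 : (3 : ℤ) ^ (0 + 1) ∣ 7 ^ 0 - u := by simpa using hu
  let F : (m : ℕ) → {t : ℕ // (3 : ℤ) ^ (m + 1) ∣ 7 ^ t - u} := fun m =>
    Nat.rec ⟨0, h0⟩ (fun m x => ⟨(lift_step x.2).choose, (lift_step x.2).choose_spec.1⟩) m
  exact ⟨fun m => (F m).1, fun m => (F m).2, fun m => (lift_step (F m).2).choose_spec.2⟩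

theorem log_irr : Irrational (log 13 / log 7) := by
  have h7 : 0 < log 7 := Real.log_pos (by norm_num)
  have h13 : 0 < log 13 := Real.log_pos (by norm_num)
  rintro ⟨q, hq⟩
  have hqpos : (0 : ℝ) < q := by rw [hq]; positivity
  have hq0 : 0 < q := by exact_mod_cast hqpos
  have hnum : 0 < q.num := Rat.num_pos.mpr hq0
  obtain ⟨a, ha⟩ : ∃ a : ℕ, q.num = a := ⟨q.num.toNat, by omega⟩
  have h1 : (q : ℝ) * q.den = a := by
    have : (q : ℝ) * q.den = q.num := by exact_mod_cast Rat.mul_den_eq_num q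
    rw [this, ha]; push_cast; rfl
  have h2 : (a : ℝ) * log 7 = q.den * log 13 := by
    have : log 13 = q * log 7 := by rw [hq]; field_simp
    rw [this, ← h1]; ring
  rw [← Real.log_pow, ← Real.log_pow] at h2
  have h3 : (7 : ℝ) ^ a = 13 ^ q.den := Real.log_injOn_pos (Set.mem_Ioi.mpr (by positivity))
    (Set.mem_Ioi.mpr (by positivity)) h2
  have h4 : 7 ^ a = 13 ^ q.den := by exact_mod_cast h3
  have h5 : (7 : ℕ) ∣ 13 ^ q.den := by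
    rw [← h4]; exact dvd_pow_self _ (by omega)
  have h6 := (Nat.Prime.dvd_of_dvd_pow (by norm_num : Nat.Prime 7) h5)
  omega

theorem log_gt : 1 < log 13 / log 7 := by
  have h7 : 0 < log 7 := Real.log_pos (by norm_num)
  rw [one_lt_div h7]
  exact Real.log_lt_log (by norm_num) (by norm_num)

/-- a positive rational is not the `3`-adic number `log 13 / log 7` -/
theorem padic_irr {t : ℕ → ℕ} (ht : ∀ m, (3 : ℤ) ^ (m + 1) ∣ 7 ^ t m - 13) (a b : ℤ)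
    (ha : 1 ≤ a) (hb : 1 ≤ b) : ∃ m : ℕ, ¬ (3 : ℤ) ^ m ∣ a - t m * b := by
  obtain ⟨a, rfl⟩ : ∃ n : ℕ, a = n := ⟨a.toNat, by omega⟩
  obtain ⟨b, rfl⟩ : ∃ n : ℕ, b = n := ⟨b.toNat, by omega⟩
  by_contra hcon
  push Not at hcon
  have h1 : ∀ m : ℕ, (3 : ℤ) ^ (m + 1) ∣ 7 ^ a - 13 ^ b := by
    intro m
    have h2 : (3 : ℤ) ^ (m + 1) ∣ 7 ^ a - 7 ^ (t m * b) := pow_congr (by
      have := hcon m; push_cast; exact this)
    have h3 : (3 : ℤ) ^ (m + 1) ∣ (7 ^ t m) ^ b - 13 ^ b := (ht m).trans (sub_dvd_pow_sub_pow _ _ _)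
    have e : (7 : ℤ) ^ a - 13 ^ b = (7 ^ a - 7 ^ (t m * b)) + ((7 ^ t m) ^ b - 13 ^ b) := by
      rw [pow_mul]; ring
    rw [e]; exact dvd_add h2 h3
  have h2 : (7 : ℤ) ^ a - 13 ^ b = 0 := by
    obtain ⟨n, hn⟩ := pow_unbounded_of_one_lt (|(7 : ℤ) ^ a - 13 ^ b|) (by norm_num : (1 : ℤ) < 3)
    refine Int.eq_zero_of_abs_lt_dvd (h1 n) (hn.trans ?_)
    exact pow_lt_pow_right₀ (by norm_num) (by omega)
  have h4 : (7 : ℤ) ^ a = 13 ^ b := by linarith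
  have h5 : 7 ^ a = 13 ^ b := by exact_mod_cast h4
  have h6 : (7 : ℕ) ∣ 13 ^ b := by
    rw [← h5]; exact dvd_pow_self _ (by omega)
  have h7 := (Nat.Prime.dvd_of_dvd_pow (by norm_num : Nat.Prime 7) h6)
  omega

/-- For every real `β` and `η > 0` there are infinitely many `m` and exponents `a`, `b ≤ C 3 ^ m`
with `16 · 7 ^ a = 13 ^ b` modulo `3 ^ (m + 1)` and `a - λ b` close to `β`. -/
theorem exists_ab (β : ℝ) {η : ℝ} (hη : 0 < η) :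
    ∃ C : ℕ, ∀ M : ℕ, ∃ m a b : ℕ, M ≤ m ∧ b ≤ C * 3 ^ m ∧
      (3 : ℤ) ^ (m + 1) ∣ 16 * 7 ^ a - 13 ^ b ∧ |(a : ℝ) - log 13 / log 7 * b - β| < η := by
  obtain ⟨t, ht1, ht2⟩ := exists_log (u := 13) (by norm_num)
  obtain ⟨s, hs1, -⟩ := exists_log (u := 16) (by norm_num)
  obtain ⟨Q, hQ⟩ := exists_nat_gt (max (2 / η) (|β| + 2))
  have hQη : 2 / η < Q := lt_of_le_of_lt (le_max_left _ _) hQ
  have hQβ : |β| + 2 < Q := lt_of_le_of_lt (le_max_right _ _) hQ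
  have hQ1R : (1 : ℝ) ≤ Q := by have := abs_nonneg β; linarith
  have hQ1 : 1 ≤ Q := by exact_mod_cast hQ1R
  refine ⟨2 * (4 * Q + 1), fun M => ?_⟩
  obtain ⟨m, hm, hgood⟩ := exists_good log_irr log_gt (t := fun m => (t m : ℤ)) ht2
    (padic_irr ht1) hQ1 M
  obtain ⟨a, b, hb1, hb2, hab, hlt⟩ := inhom_good hQ1 hgood (-(s m : ℤ)) β
  have h3m : (1 : ℤ) ≤ 3 ^ m := one_le_pow₀ (by norm_num)
  have hQb : (Q : ℤ) ≤ b := by nlinarith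
  have hQbR : (Q : ℝ) ≤ b := by exact_mod_cast hQb
  have ha0 : 0 ≤ a := by
    have h1 := (abs_lt.mp hlt).1
    have h2 : 2 / (Q : ℝ) ≤ 2 := by rw [div_le_iff₀ (by linarith)]; linarith
    have h3 : (b : ℝ) ≤ log 13 / log 7 * b := le_mul_of_one_le_left (by linarith) log_gt.le
    have h4 := neg_abs_le β
    have h5 : (0 : ℝ) < a := by linarith
    have h6 : 0 < a := by exact_mod_cast h5
    omega
  obtain ⟨a, rfl⟩ : ∃ n : ℕ, a = n := ⟨a.toNat, by omega⟩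
  obtain ⟨b, rfl⟩ : ∃ n : ℕ, b = n := ⟨b.toNat, by omega⟩
  refine ⟨m, a, b, hm, ?_, ?_, ?_⟩
  · have e : 2 * ((4 * Q + 1) * 3 ^ m) = 2 * (4 * Q + 1) * 3 ^ m := by ring
    rw [← e]; exact_mod_cast hb2
  · have h1 : (3 : ℤ) ^ (m + 1) ∣ 7 ^ (a + s m) - 7 ^ (t m * b) := pow_congr (by
      have e : (((a + s m : ℕ) : ℤ) - ((t m * b : ℕ) : ℤ)) = a - t m * b - (-(s m : ℤ)) := by
        push_cast; ring
      rw [e]; exact hab)
    have h2 : (3 : ℤ) ^ (m + 1) ∣ (7 ^ t m) ^ b - 13 ^ b :=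
      (ht1 m).trans (sub_dvd_pow_sub_pow _ _ _)
    have h3 : (3 : ℤ) ^ (m + 1) ∣ 7 ^ a * (7 ^ s m - 16) := Dvd.dvd.mul_left (hs1 m) _
    have e : (16 : ℤ) * 7 ^ a - 13 ^ b = (7 ^ (a + s m) - 7 ^ (t m * b)) +
        ((7 ^ t m) ^ b - 13 ^ b) - 7 ^ a * (7 ^ s m - 16) := by
      rw [pow_mul, pow_add]; ring
    rw [e]; exact dvd_sub (dvd_add h1 h2) h3
  · have h1 : ((a : ℕ) : ℝ) = ((a : ℤ) : ℝ) := by push_cast; rfl
    have h2 : ((b : ℕ) : ℝ) = ((b : ℤ) : ℝ) := by push_cast; rfl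
    rw [h1, h2]
    refine hlt.trans ?_
    rw [div_lt_iff₀ hη] at hQη
    rw [div_lt_iff₀ (by linarith)]; linarith

end Pool.Agent.U64.SZ
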