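import Pool.Agent.U64.SZ.Neg
import Pool.Agent.U64.SZ.Pow

/-!
# Positive discriminant: `j ≥ 1728`
-/

set_option autoImplicit false

open Real

namespace Pool.Agent.U64.SZ

noncomputable def g (s : ℝ) : ℝ := 256 * (s ^ 2 - s + 1) ^ 3 / (s ^ 2 * (s - 1) ^ 2)

theorem g_cont {s : ℝ} (hs : 1 < s) : ContinuousAt g s := by
  unfold g
  have h1 : s ^ 2 * (s - 1) ^ 2 ≠ 0 := by
    have : 0 < s - 1 := by linarith
    positivity
  exact ContinuousAt.div (by fun_prop) (by fun_prop) h1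

theorem g_surj {j₀ : ℝ} (hj : 1728 ≤ j₀) : ∃ s, 1 < s ∧ s ≤ 2 ∧ g s = j₀ := by
  obtain ⟨r, hr⟩ : ∃ r : ℝ, r = 1 / j₀ := ⟨_, rfl⟩
  have hr0 : 0 < r := by rw [hr]; positivity
  have hr1 : r ≤ 1 := by rw [hr, div_le_one (by linarith)]; linarith
  have hrj : j₀ * r = 1 := by rw [hr]; field_simp
  have h1 : j₀ ≤ g (1 + r) := by
    unfold g
    rw [le_div_iff₀ (by have : (1 + r - 1) = r := by ring
                        rw [this]; positivity)]
    have h2 : (1 : ℝ) ≤ ((1 + r) ^ 2 - (1 + r) + 1) ^ 3 := by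
      apply one_le_pow₀; nlinarith
    have h3 : j₀ * ((1 + r) ^ 2 * (1 + r - 1) ^ 2) = r * (1 + r) ^ 2 := by
      calc j₀ * ((1 + r) ^ 2 * (1 + r - 1) ^ 2) = (j₀ * r) * (r * (1 + r) ^ 2) := by ring
        _ = _ := by rw [hrj, one_mul]
    rw [h3]
    have h4 : r * (1 + r) ^ 2 ≤ 1 * (1 + 1) ^ 2 := by gcongr
    linarith
  have h2 : g 2 ≤ j₀ := by unfold g; norm_num; exact hj
  have hc : ContinuousOn g (Set.Icc (1 + r) 2) := fun v hv =>
    (g_cont (by have := hv.1; linarith)).continuousWithinAt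
  obtain ⟨v, hv, hv'⟩ := intermediate_value_Icc' (by linarith) hc ⟨h2, h1⟩
  exact ⟨v, by have := hv.1; linarith, hv.2, hv'⟩

theorem thirteen_mod (b : ℕ) : ∃ r : ℤ, (13 : ℤ) ^ b = 1 + 4 * r := by
  induction b with
  | zero => exact ⟨0, by norm_num⟩
  | succ b ih =>
    obtain ⟨r, hr⟩ := ih
    exact ⟨3 + 13 * r, by rw [pow_succ, hr]; ring⟩

theorem pos_case {j₀ : ℝ} (hj : 1728 ≤ j₀) {δ : ℝ} (hδ : 0 < δ) :
    ∃ c : ℝ, 0 < c ∧ ∀ X : ℝ, ∃ W, Good j₀ δ c X W := by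
  obtain ⟨s₀, hs1, hs2, hgs⟩ := g_surj hj
  have h7 : 0 < log 7 := Real.log_pos (by norm_num)
  have h13 : 0 < log 13 := Real.log_pos (by norm_num)
  have h16 : 0 < log 16 := Real.log_pos (by norm_num)
  obtain ⟨ε₁, hε₁, hcont⟩ := Metric.continuousAt_iff.mp (g_cont hs1) δ hδ
  -- continuity of the exponential function
  have hexp : ContinuousAt exp (log s₀) := Real.continuous_exp.continuousAt
  obtain ⟨ε₂, hε₂, hcont2⟩ := Metric.continuousAt_iff.mp hexp (min ε₁ (1 / 2)) (by positivity)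
  rw [Real.exp_log (by linarith)] at hcont2
  obtain ⟨C, hC⟩ := exists_ab ((log s₀ - log 16) / log 7) (η := ε₂ / log 7) (by positivity)
  obtain ⟨K, hK⟩ : ∃ K : ℝ, K = log 256 + 8 * C * log 13 := ⟨_, rfl⟩
  have hl256 : 0 < log 256 := Real.log_pos (by norm_num)
  have hK0 : 0 < K := by rw [hK]; positivity
  refine ⟨1 / (5184 * (K * 91) ^ 6), by positivity, fun X => ?_⟩
  obtain ⟨M, hM⟩ := pow_unbounded_of_one_lt X (by norm_num : (1 : ℝ) < 3)
  obtain ⟨m, a, b, hMm, hb, hd, hab⟩ := hC M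
  obtain ⟨x, hx⟩ : ∃ x : ℤ, x = 7 ^ a := ⟨_, rfl⟩
  obtain ⟨y, hy⟩ : ∃ y : ℤ, y = 13 ^ b := ⟨_, rfl⟩
  obtain ⟨e, he⟩ : ∃ e : ℤ, e = 16 * x - y := ⟨_, rfl⟩
  obtain ⟨r, hr⟩ := thirteen_mod b
  rw [← hy] at hr
  rw [← hx, ← hy, ← he] at hd
  have he0 : e ≠ 0 := by omega
  have hx0 : 0 < x := by rw [hx]; positivity
  have hy0 : 0 < y := by rw [hy]; positivity
  have hxR : (x : ℝ) = 7 ^ a := by rw [hx]; push_cast; rfl
  have hyR : (y : ℝ) = 13 ^ b := by rw [hy]; push_cast; rfl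
  have heR : (e : ℝ) = 16 * x - y := by rw [he]; push_cast; rfl
  have hx1 : (1 : ℝ) ≤ x := by exact_mod_cast hx0
  have hy1 : (1 : ℝ) ≤ y := by exact_mod_cast hy0
  have hxp : (0 : ℝ) < x := by linarith
  have hyp : (0 : ℝ) < y := by linarith
  -- the position
  obtain ⟨s, hs⟩ : ∃ s : ℝ, s = 16 * x / y := ⟨_, rfl⟩
  have hspos : 0 < s := by rw [hs]; positivity
  have hlog : log s = log 16 + a * log 7 - b * log 13 := by
    rw [hs, Real.log_div (by positivity) (by positivity), Real.log_mul (by norm_num)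
      (by positivity), hxR, hyR, Real.log_pow, Real.log_pow]
  have hdist : |log s - log s₀| < ε₂ := by
    have e1 : log s - log s₀ =
        log 7 * ((a : ℝ) - log 13 / log 7 * b - (log s₀ - log 16) / log 7) := by
      rw [hlog]; field_simp; ring
    rw [e1, abs_mul, abs_of_pos h7]
    calc log 7 * |(a : ℝ) - log 13 / log 7 * b - (log s₀ - log 16) / log 7|
        < log 7 * (ε₂ / log 7) := by gcongr
      _ = ε₂ := by field_simp
  have hss := hcont2 (x := log s) (by rw [Real.dist_eq]; exact hdist)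
  rw [Real.exp_log hspos, Real.dist_eq] at hss
  have hss1 : |s - s₀| < ε₁ := lt_of_lt_of_le hss (min_le_left _ _)
  have hss2 : |s - s₀| < 1 / 2 := lt_of_lt_of_le hss (min_le_right _ _)
  have hsl : 1 / 2 < s := by have := (abs_lt.mp hss2).1; linarith
  have hsu : s < 5 / 2 := by have := (abs_lt.mp hss2).2; linarith
  have hsy : s * y = 16 * x := by rw [hs]; field_simp
  have hes : (e : ℝ) = y * (s - 1) := by rw [heR]; linarith
  have hA4 : 4 * (4 * x + r) + 1 = 16 * x + y := by rw [hr]; ring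
  have hΔ : (crv (4 * x + r) (x * y)).Δ = x ^ 2 * y ^ 2 * e ^ 2 := by
    rw [crv_disc, hA4, he]; ring
  have hc4 : (crv (4 * x + r) (x * y)).c₄ = (16 * x + y) ^ 2 - 48 * (x * y) := by
    rw [crv_c4, hA4]
  have hcop0 : IsCoprime y x := by
    rw [hx, hy]
    apply IsCoprime.pow
    rw [Int.isCoprime_iff_gcd_eq_one]; decide
  have hcop16 : IsCoprime (16 : ℤ) y := by
    rw [hy]
    apply IsCoprime.pow_right
    rw [Int.isCoprime_iff_gcd_eq_one]; decide
  have hcop : IsCoprime (16 * x + y) (x * y) := by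
    apply IsCoprime.mul_right
    · have e1 : 16 * x + y = y + x * 16 := by ring
      rw [e1]; exact hcop0.add_mul_left_left _
    · have e1 : 16 * x + y = 16 * x + y * 1 := by ring
      rw [e1]
      exact (hcop16.mul_left hcop0.symm).add_mul_left_left _
  have hDR : |((crv (4 * x + r) (x * y)).Δ : ℝ)| = (x : ℝ) ^ 2 * y ^ 2 * e ^ 2 := by
    rw [hΔ]; push_cast; rw [abs_of_nonneg (by positivity)]
  have he1 : (1 : ℝ) ≤ (e : ℝ) ^ 2 := by
    have : (1 : ℤ) ≤ e ^ 2 := by have := sq_pos_of_ne_zero he0; omega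
    exact_mod_cast this
  have hxy1 : (1 : ℝ) ≤ (x : ℝ) ^ 2 * y ^ 2 :=
    one_le_mul_of_one_le_of_one_le (one_le_pow₀ hx1) (one_le_pow₀ hy1)
  have hD1 : 1 ≤ |((crv (4 * x + r) (x * y)).Δ : ℝ)| := by
    rw [hDR]; exact one_le_mul_of_one_le_of_one_le hxy1 he1
  refine ⟨crv (4 * x + r) (x * y), ?_, crv_coprime (by rw [hA4]; exact hcop), crv_b6 _ _,
    ?_, ?_, ?_⟩
  · rw [hΔ]; positivity
  · have hj : ((crv (4 * x + r) (x * y)).c₄ : ℝ) ^ 3 / (crv (4 * x + r) (x * y)).Δ = g s := by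
      rw [hc4, hΔ, g]
      push_cast
      have e1 : (x : ℝ) = s * y / 16 := by rw [hsy]; ring
      have hs1' : s - 1 ≠ 0 := by
        intro h0
        rw [h0, mul_zero] at hes
        rw [hes] at he1; norm_num at he1
      rw [hes, e1]
      field_simp
      ring
    rw [hj, ← hgs, ← Real.dist_eq]
    exact hcont (by rw [Real.dist_eq]; exact hss1)
  · have h1 : (3 : ℤ) ^ (m + 1) ≤ |e| := Int.le_of_dvd (abs_pos.mpr he0) ((dvd_abs _ _).mpr hd)
    have h2 : (3 : ℝ) ^ (m + 1) ≤ |(e : ℝ)| := by exact_mod_cast h1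
    have h3 : (3 : ℝ) ^ M ≤ 3 ^ (m + 1) := pow_le_pow_right₀ (by norm_num) (by omega)
    have h4 : |(e : ℝ)| ≤ (e : ℝ) ^ 2 := by
      have h5 : (1 : ℝ) ≤ |(e : ℝ)| := le_trans (one_le_pow₀ (by norm_num)) h2
      rw [← sq_abs]; nlinarith
    rw [hDR]
    have h7 : (e : ℝ) ^ 2 ≤ (x : ℝ) ^ 2 * y ^ 2 * e ^ 2 := le_mul_of_one_le_left (by positivity) hxy1
    linarith
  · refine bound (m := m) (e := e) (by positivity) (by norm_num) hK0 hD1 ?_ ?_ (by norm_num) ?_
    · have h1 := rd_le (W := crv (4 * x + r) (x * y)) (T := 91) (m := m) (e := e)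
        (by norm_num) he0 hd
        (by
          intro p hp hpd
          have hpz : Prime (p : ℤ) := Nat.prime_iff_prime_int.mp hp
          rw [hΔ] at hpd
          rcases hpz.dvd_mul.mp hpd with h | h
          · apply Dvd.dvd.mul_right
            rcases hpz.dvd_mul.mp h with h | h
            · have h2 := hpz.dvd_of_dvd_pow h
              rw [hx] at h2
              exact (hpz.dvd_of_dvd_pow h2).trans ⟨13, by norm_num⟩
            · have h2 := hpz.dvd_of_dvd_pow h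
              rw [hy] at h2
              exact (hpz.dvd_of_dvd_pow h2).trans ⟨7, by norm_num⟩
          · exact Dvd.dvd.mul_left (hpz.dvd_of_dvd_pow h) _)
      have h2 : ((rd (crv (4 * x + r) (x * y)) * 3 ^ m : ℕ) : ℝ) ≤ ((91 * e.natAbs : ℕ) : ℝ) := by
        exact_mod_cast h1
      push_cast at h2
      rw [Nat.cast_natAbs] at h2
      push_cast at h2
      exact h2
    · rw [hDR]
      have hxy : (x : ℝ) ≤ y := by
        have : s * y ≤ 5 / 2 * y := by gcongr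
        linarith
      have he2 : (e : ℝ) ^ 2 ≤ 256 * (y : ℝ) ^ 4 := by
        have h1 : (e : ℝ) ^ 2 = y ^ 2 * (s - 1) ^ 2 := by rw [hes]; ring
        have h2 : (s - 1) ^ 2 ≤ 256 := by nlinarith
        have h3 : (1 : ℝ) ≤ (y : ℝ) ^ 2 := one_le_pow₀ hy1
        rw [h1]
        calc (y : ℝ) ^ 2 * (s - 1) ^ 2 ≤ (y : ℝ) ^ 2 * 256 := by gcongr
          _ ≤ (y : ℝ) ^ 2 * (256 * (y : ℝ) ^ 2) := by gcongr; linarith
          _ = 256 * (y : ℝ) ^ 4 := by ring
      have h1 : (x : ℝ) ^ 2 * y ^ 2 * e ^ 2 ≤ 256 * (13 ^ b) ^ 8 := by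
        rw [← hyR]
        calc (x : ℝ) ^ 2 * y ^ 2 * e ^ 2 ≤ (y : ℝ) ^ 2 * y ^ 2 * (256 * (y : ℝ) ^ 4) := by gcongr
          _ = 256 * (y : ℝ) ^ 8 := by ring
      have h2 : log ((x : ℝ) ^ 2 * y ^ 2 * e ^ 2) ≤ log 256 + 8 * (b * log 13) := by
        calc log ((x : ℝ) ^ 2 * y ^ 2 * e ^ 2) ≤ log (256 * (13 ^ b) ^ 8) :=
              Real.log_le_log (by rw [hDR] at hD1; linarith) h1
          _ = log 256 + 8 * (b * log 13) := by
              rw [Real.log_mul (by norm_num) (by positivity), Real.log_pow, Real.log_pow]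
              push_cast; ring
      refine h2.trans ?_
      rw [hK]
      have h3 : (b : ℝ) ≤ C * 3 ^ m := by exact_mod_cast hb
      have h4 : (1 : ℝ) ≤ 3 ^ m := one_le_pow₀ (by norm_num)
      calc log 256 + 8 * (b * log 13) ≤ log 256 * 3 ^ m + 8 * ((C * 3 ^ m) * log 13) := by
            gcongr
            exact le_mul_of_one_le_right hl256.le h4
        _ = (log 256 + 8 * C * log 13) * 3 ^ m := by ring
    · rw [hDR]
      have h1 : (e : ℝ) ^ 2 ≤ 72 * (x * y) := by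
        have h1 : (e : ℝ) ^ 2 = y ^ 2 * (s - 1) ^ 2 := by rw [hes]; ring
        have h2 : (s - 1) ^ 2 ≤ 9 / 2 * s := by nlinarith
        have h3 : (72 : ℝ) * (x * y) = y ^ 2 * (9 / 2 * s) := by
          have : (x : ℝ) = s * y / 16 := by rw [hsy]; ring
          rw [this]; ring
        rw [h1, h3]
        gcongr
      calc (e : ℝ) ^ 6 = ((e : ℝ) ^ 2) ^ 2 * (e : ℝ) ^ 2 := by ring
        _ ≤ (72 * (x * y)) ^ 2 * (e : ℝ) ^ 2 := by gcongr
        _ = 5184 * ((x : ℝ) ^ 2 * y ^ 2 * e ^ 2) := by ring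

theorem main (j₀ : ℝ) {δ : ℝ} (hδ : 0 < δ) : ∃ c : ℝ, 0 < c ∧ ∀ X : ℝ, ∃ W, Good j₀ δ c X W := by
  rcases le_total j₀ 1728 with h | h
  · exact neg_case h hδ
  · exact pos_case h hδ

end Pool.Agent.U64.SZ
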