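import Pool.Agent.U64.SZ.Zeta

/-!
# The argument of `(1 - 3 √-7) (1 + 84 √-7) ^ n`
-/

set_option autoImplicit false

open Real

namespace Pool.Agent.U64.SZ

/-- the embedding of `ℤ[√-7]` in `ℂ` -/
noncomputable def emb (z : ℤ√(-7)) : ℂ := ⟨z.re, √7 * z.im⟩

theorem emb_mul (x y : ℤ√(-7)) : emb (x * y) = emb x * emb y := by
  have h7 : √7 * √7 = 7 := Real.mul_self_sqrt (by norm_num)
  apply Complex.ext
  · rw [Complex.mul_re]; simp only [emb, Zsqrtd.re_mul]; push_cast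
    linear_combination (-(x.im : ℝ) * y.im) * (-h7)
  · rw [Complex.mul_im]; simp only [emb, Zsqrtd.im_mul]; push_cast; ring

theorem emb_pow (x : ℤ√(-7)) (n : ℕ) : emb (x ^ n) = emb x ^ n := by
  induction n with
  | zero => simp only [pow_zero]; apply Complex.ext <;> simp [emb]
  | succ n ih => rw [pow_succ, emb_mul, ih, pow_succ]

noncomputable def φ : ℝ := (emb ζ).arg

noncomputable def α : ℝ := (emb ⟨1, -3⟩).arg

theorem im_pow_arg (x : ℤ√(-7)) (n : ℕ) :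
    √7 * (x ^ n).im = ‖emb x‖ ^ n * sin (n * (emb x).arg) := by
  have h1 : (emb (x ^ n)).im = √7 * (x ^ n).im := rfl
  rw [← h1, emb_pow]
  conv_lhs => rw [← Complex.norm_mul_exp_arg_mul_I (emb x)]
  rw [mul_pow, ← Complex.exp_nat_mul]
  have e : ((n : ℂ) * ((emb x).arg * Complex.I)) = ((n * (emb x).arg : ℝ) : ℂ) * Complex.I := by
    push_cast; ring
  rw [e]
  have e2 : ((‖emb x‖ : ℂ)) ^ n = ((‖emb x‖ ^ n : ℝ) : ℂ) := by push_cast; rfl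
  rw [e2, Complex.im_ofReal_mul, Complex.exp_ofReal_mul_I_im]

theorem irr : Irrational (φ / (2 * π)) := by
  rintro ⟨q, hq⟩
  have hpi : (0 : ℝ) < 2 * π := by positivity
  have hd : (q.den : ℝ) ≠ 0 := by exact_mod_cast q.den_nz
  have h1 : (q.den : ℝ) * φ = q.num * (2 * π) := by
    have h2 : φ = q * (2 * π) := by rw [hq]; field_simp
    have h3 : (q : ℝ) * q.den = q.num := by exact_mod_cast Rat.mul_den_eq_num q
    rw [h2, ← h3]; ring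
  have h2 := im_pow_arg ζ q.den
  have h3 : sin (q.den * (emb ζ).arg) = 0 := by
    have : (q.den : ℝ) * (emb ζ).arg = (2 * q.num : ℤ) * π := by
      change (q.den : ℝ) * φ = _
      rw [h1]; push_cast; ring
    rw [this]; exact Real.sin_int_mul_pi _
  rw [h3, mul_zero] at h2
  have h7 : √7 ≠ 0 := by positivity
  have h4 : ((ζ ^ q.den).im : ℝ) = 0 := by
    rcases mul_eq_zero.mp h2 with h | h
    · exact absurd h h7
    · exact h
  have h5 : (ζ ^ q.den).im = 0 := by exact_mod_cast h4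
  obtain ⟨k, hk⟩ : ∃ k, q.den = k + 1 := ⟨q.den - 1, by have := q.pos; omega⟩
  rw [hk] at h5
  exact zeta_im_ne k h5

/-- the imaginary part of `w n` in terms of the argument -/
theorem im_w (n : ℕ) : 7 * ((w n).im : ℝ) ^ 2 = 64 * 49393 ^ n * sin (α + n * φ) ^ 2 := by
  have hne : emb (⟨1, -3⟩ : ℤ√(-7)) = ‖emb (⟨1, -3⟩ : ℤ√(-7))‖ * Complex.exp (α * Complex.I) :=
    (Complex.norm_mul_exp_arg_mul_I _).symm
  have hz : emb ζ = ‖emb ζ‖ * Complex.exp (φ * Complex.I) :=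
    (Complex.norm_mul_exp_arg_mul_I _).symm
  have h1 : √7 * (w n).im = ‖emb (⟨1, -3⟩ : ℤ√(-7))‖ * ‖emb ζ‖ ^ n * sin (α + n * φ) := by
    have h1 : (emb (w n)).im = √7 * (w n).im := rfl
    rw [← h1, w, emb_mul, emb_pow]
    conv_lhs => rw [hne, hz]
    rw [mul_pow, ← Complex.exp_nat_mul]
    have e : (‖emb (⟨1, -3⟩ : ℤ√(-7))‖ : ℂ) * Complex.exp (α * Complex.I) *
        ((‖emb ζ‖ : ℂ) ^ n * Complex.exp (n * (φ * Complex.I))) =
        ((‖emb (⟨1, -3⟩ : ℤ√(-7))‖ * ‖emb ζ‖ ^ n : ℝ) : ℂ) *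
          Complex.exp (((α + n * φ : ℝ) : ℂ) * Complex.I) := by
      push_cast
      rw [add_mul, Complex.exp_add]
      ring_nf
    rw [e, Complex.im_ofReal_mul, Complex.exp_ofReal_mul_I_im]
  have hn : ∀ z : ℤ√(-7), ‖emb z‖ ^ 2 = z.re ^ 2 + 7 * z.im ^ 2 := by
    intro z
    rw [Complex.sq_norm, Complex.normSq_apply]
    have h7 : √7 * √7 = 7 := Real.mul_self_sqrt (by norm_num)
    simp only [emb]
    linear_combination ((z.im : ℝ) ^ 2) * h7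
  have h2 : ‖emb (⟨1, -3⟩ : ℤ√(-7))‖ ^ 2 = 64 := by rw [hn]; norm_num
  have h3 : ‖emb ζ‖ ^ 2 = 49393 := by rw [hn]; simp only [ζ]; norm_num
  have h7 : √7 ^ 2 = 7 := Real.sq_sqrt (by norm_num)
  calc 7 * ((w n).im : ℝ) ^ 2 = (√7 * (w n).im) ^ 2 := by rw [mul_pow, h7]
    _ = ‖emb (⟨1, -3⟩ : ℤ√(-7))‖ ^ 2 * (‖emb ζ‖ ^ 2) ^ n * sin (α + n * φ) ^ 2 := by
        rw [h1]; ring
    _ = _ := by rw [h2, h3]

/-- For every `v` in `[0, 1]` and `ε > 0` there are infinitely many `m` and `n ≤ C 3 ^ m` such that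
`3 ^ (m + 1) ∣ d` and `7 d ^ 2 / (64 · 49393 ^ n)` is close to `v`. -/
theorem exists_w {v : ℝ} (hv0 : 0 ≤ v) (hv1 : v ≤ 1) {ε : ℝ} (hε : 0 < ε) :
    ∃ C : ℕ, ∀ M : ℕ, ∃ m n : ℕ, M ≤ m ∧ n ≤ C * 3 ^ m ∧ (3 : ℤ) ^ (m + 1) ∣ (w n).im ∧
      |7 * ((w n).im : ℝ) ^ 2 / (64 * 49393 ^ n) - v| < ε := by
  have hpi : (0 : ℝ) < 2 * π := by positivity
  obtain ⟨δ, hδ⟩ : ∃ δ : ℝ, δ = ε / (8 * π) := ⟨_, rfl⟩
  have hδ0 : 0 < δ := by rw [hδ]; positivity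
  obtain ⟨C, hC⟩ := rot irr hδ0
  refine ⟨C + 1, fun M => ?_⟩
  obtain ⟨m, hm, h⟩ := hC M
  obtain ⟨n₀, hn₀, hd⟩ := exists_dvd m
  obtain ⟨θ, hθ⟩ : ∃ θ : ℝ, sin θ ^ 2 = v := by
    refine ⟨arcsin (√v), ?_⟩
    rw [Real.sin_arcsin (by have := Real.sqrt_nonneg v; linarith) (Real.sqrt_le_one.mpr hv1),
      Real.sq_sqrt hv0]
  obtain ⟨j, hj, p, hp⟩ := h ((θ - α - n₀ * φ) / (2 * π))
  refine ⟨m, n₀ + 3 ^ m * j, hm, ?_, dvd_add m n₀ hd j, ?_⟩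
  · calc n₀ + 3 ^ m * j ≤ 3 ^ m + 3 ^ m * C := by gcongr
      _ = (C + 1) * 3 ^ m := by ring
  · rw [im_w, mul_div_cancel_left₀ _ (by positivity), ← hθ]
    have h1 : sin θ = sin (θ + p * (2 * π)) := (Real.sin_add_int_mul_two_pi θ p).symm
    have h2 : |sin (α + ((n₀ + 3 ^ m * j : ℕ) : ℝ) * φ) - sin θ| ≤ 2 * π * δ := by
      rw [h1]
      refine (Real.abs_sin_sub_sin_le _ _).trans ?_
      have e : α + ((n₀ + 3 ^ m * j : ℕ) : ℝ) * φ - (θ + p * (2 * π)) =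
          2 * π * ((j : ℝ) * (3 ^ m * (φ / (2 * π))) - p - (θ - α - n₀ * φ) / (2 * π)) := by
        field_simp
        push_cast
        ring
      rw [e, abs_mul, abs_of_pos hpi]
      exact mul_le_mul_of_nonneg_left hp.le hpi.le
    obtain ⟨a, ha⟩ : ∃ a, a = sin (α + ((n₀ + 3 ^ m * j : ℕ) : ℝ) * φ) := ⟨_, rfl⟩
    obtain ⟨b, hb⟩ : ∃ b, b = sin θ := ⟨_, rfl⟩
    rw [← ha, ← hb] at h2 ⊢
    have ha1 : |a| ≤ 1 := by rw [ha]; exact Real.abs_sin_le_one _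
    have hb1 : |b| ≤ 1 := by rw [hb]; exact Real.abs_sin_le_one _
    have e : a ^ 2 - b ^ 2 = (a - b) * (a + b) := by ring
    rw [e, abs_mul]
    have h3 : |a + b| ≤ 2 := (abs_add_le _ _).trans (by linarith)
    have h4 : 2 * π * δ = ε / 4 := by rw [hδ]; field_simp; ring
    rw [h4] at h2
    calc |a - b| * |a + b| ≤ ε / 4 * 2 := by gcongr
      _ < ε := by linarith

end Pool.Agent.U64.SZ
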