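import Pool.Agent.W270.Szp.Final

/-!
# The curves `y² + xy = x³ + a x² + B x`
-/

set_option autoImplicit false

open Real

namespace Pool.Agent.U64.SZ

/-- `y² + xy = x³ + a x² + B x` -/
def crv (a B : ℤ) : WeierstrassCurve ℤ := ⟨1, a, 0, B, 0⟩

theorem crv_c4 (a B : ℤ) : (crv a B).c₄ = (4 * a + 1) ^ 2 - 48 * B := by
  simp only [crv, WeierstrassCurve.c₄, WeierstrassCurve.b₂, WeierstrassCurve.b₄]; ring

theorem crv_disc (a B : ℤ) : (crv a B).Δ = B ^ 2 * ((4 * a + 1) ^ 2 - 64 * B) := by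
  simp only [crv, WeierstrassCurve.Δ, WeierstrassCurve.b₂, WeierstrassCurve.b₄,
    WeierstrassCurve.b₆, WeierstrassCurve.b₈]; ring

theorem crv_coprime {a B : ℤ} (h : IsCoprime (4 * a + 1) B) :
    IsCoprime (crv a B).c₄ (crv a B).Δ := by
  rw [crv_c4, crv_disc]
  have h1 : IsCoprime ((4 * a + 1) ^ 2 - 48 * B) B := by
    have e : (4 * a + 1) ^ 2 - 48 * B = (4 * a + 1) ^ 2 + B * (-48) := by ring
    rw [e]
    exact (h.pow_left).add_mul_left_left _
  have h2 : IsCoprime ((4 * a + 1) ^ 2 - 48 * B) 2 := by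
    have e : (4 * a + 1) ^ 2 - 48 * B = 1 + 2 * (8 * a ^ 2 + 4 * a - 24 * B) := by ring
    rw [e]
    exact isCoprime_one_left.add_mul_left_left _
  have h3 : IsCoprime ((4 * a + 1) ^ 2 - 48 * B) ((4 * a + 1) ^ 2 - 64 * B) := by
    have e : (4 * a + 1) ^ 2 - 64 * B = -(2 ^ 4 * B) + ((4 * a + 1) ^ 2 - 48 * B) * 1 := by ring
    rw [e]
    exact IsCoprime.add_mul_left_right ((h2.pow_right.mul_right h1).neg_right) _
  exact h1.pow_right.mul_right h3

/-- the product of the primes dividing `Δ` -/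
def rd (W : WeierstrassCurve ℤ) : ℕ := ∏ p ∈ W.Δ.natAbs.primeFactors, p

theorem rd_le {W : WeierstrassCurve ℤ} {T m : ℕ} {e : ℤ} (hT : 0 < T) (he : e ≠ 0)
    (hd : (3 : ℤ) ^ (m + 1) ∣ e) (hp : ∀ p : ℕ, p.Prime → (p : ℤ) ∣ W.Δ → (p : ℤ) ∣ T * e) :
    rd W * 3 ^ m ≤ T * e.natAbs := by
  obtain ⟨e', rfl⟩ := hd
  have he' : e' ≠ 0 := by rintro rfl; simp at he
  have h1 : rd W ∣ T * (3 * e'.natAbs) := by
    apply Finset.prod_primes_dvd
    · intro p hp'
      exact (Nat.prime_of_mem_primeFactors hp').prime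
    · intro p hp'
      have hpp := Nat.prime_of_mem_primeFactors hp'
      have h2 : (p : ℤ) ∣ W.Δ := Int.natCast_dvd.mpr (Nat.dvd_of_mem_primeFactors hp')
      have h3 := hp p hpp h2
      have hpz : Prime (p : ℤ) := Nat.prime_iff_prime_int.mp hpp
      have h4 : (p : ℤ) ∣ T * (3 * e') := by
        rcases hpz.dvd_mul.mp h3 with h | h
        · exact Dvd.dvd.mul_right h _
        · apply Dvd.dvd.mul_left
          rcases hpz.dvd_mul.mp h with h | h
          · exact Dvd.dvd.mul_right (hpz.dvd_of_dvd_pow h) _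
          · exact Dvd.dvd.mul_left h _
      have h5 := Int.natCast_dvd.mp h4
      rwa [Int.natAbs_mul, Int.natAbs_mul, Int.natAbs_natCast] at h5
  have hpos : 0 < T * (3 * e'.natAbs) := by
    have : 0 < e'.natAbs := Int.natAbs_pos.mpr he'
    positivity
  calc rd W * 3 ^ m ≤ (T * (3 * e'.natAbs)) * 3 ^ m := by
        gcongr; exact Nat.le_of_dvd hpos h1
    _ = T * ((3 : ℤ) ^ (m + 1) * e').natAbs := by
        rw [Int.natAbs_mul, Int.natAbs_pow]; simp only [Int.reduceAbs]; ring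

/-- the final estimate -/
theorem bound {N T e D K P : ℝ} {m : ℕ} (hN : 0 ≤ N) (hT : 0 < T) (hK : 0 < K)
    (hD : 1 ≤ D) (h1 : N * 3 ^ m ≤ T * |e|) (h2 : log D ≤ K * 3 ^ m) (hP : 0 < P)
    (h3 : e ^ 6 ≤ P * D) :
    1 / (P * (K * T) ^ 6) * (N ^ 6 * log D ^ 6) ≤ D := by
  have hl : 0 ≤ log D := Real.log_nonneg hD
  have h3m : (0 : ℝ) < 3 ^ m := by positivity
  have h4 : N * log D ≤ K * T * |e| := by
    calc N * log D ≤ N * (K * 3 ^ m) := by gcongr
      _ = K * (N * 3 ^ m) := by ring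
      _ ≤ K * (T * |e|) := by gcongr
      _ = K * T * |e| := by ring
  have h5 : (N * log D) ^ 6 ≤ (K * T) ^ 6 * (P * D) := by
    calc (N * log D) ^ 6 ≤ (K * T * |e|) ^ 6 := by gcongr
      _ = (K * T) ^ 6 * e ^ 6 := by
          rw [mul_pow, Even.pow_abs (by decide)]
      _ ≤ _ := by gcongr
  rw [div_mul_eq_mul_div, one_mul, div_le_iff₀ (by positivity), ← mul_pow]
  linarith

end Pool.Agent.U64.SZ
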