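import Pool.Agent.U64.DP.Dio

/-!
# Simultaneous real and `3`-adic approximation

`λ` is an irrational real number and `t` a `3`-adic number (given by its approximations `t m` modulo
`3 ^ m`) which is not a positive rational. The lattices
`{(a, b) : a ≡ t b (mod 3 ^ m)}` are nested, so for infinitely many `m` none of their short vectors
is very close to the line `a = λ b`. For these `m` every coset contains points `(a, b)` with
`a - λ b` close to a given real and `b = O(3 ^ m)`.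
-/

set_option autoImplicit false

namespace Pool.Agent.U64.SZ

theorem exists_good {lam : ℝ} (hl : Irrational lam) (hl1 : 1 < lam) {t : ℕ → ℤ}
    (ht : ∀ m, (3 : ℤ) ^ m ∣ t (m + 1) - t m)
    (hirr : ∀ a b : ℤ, 1 ≤ a → 1 ≤ b → ∃ m : ℕ, ¬ (3 : ℤ) ^ m ∣ a - t m * b)
    {Q : ℕ} (hQ : 1 ≤ Q) (M : ℕ) :
    ∃ m, M ≤ m ∧ ∀ a b : ℤ, 1 ≤ b → b < Q * 3 ^ m → (3 : ℤ) ^ m ∣ a - t m * b →
      1 / (4 * (Q : ℝ) + 1) ≤ |(a : ℝ) - lam * b| := by
  by_contra hcon
  push Not at hcon
  have hQ1 : (1 : ℝ) ≤ Q := by exact_mod_cast hQ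
  choose! a b hb1 hbQ hd hlt using hcon
  -- consecutive vectors are parallel
  have hpar : ∀ m, M ≤ m → a m * b (m + 1) = a (m + 1) * b m := by
    intro m hm
    have h1 : (3 : ℤ) ^ m ∣ a m * b (m + 1) - a (m + 1) * b m := by
      obtain ⟨x, hx⟩ := hd m hm
      obtain ⟨y, hy⟩ := hd (m + 1) (by omega)
      obtain ⟨z, hz⟩ := ht m
      refine ⟨x * b (m + 1) - z * b (m + 1) * b m - 3 * y * b m, ?_⟩
      rw [pow_succ] at hy
      linear_combination b (m + 1) * hx - b m * hy - b (m + 1) * b m * hz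
    have h2 : |((a m * b (m + 1) - a (m + 1) * b m : ℤ) : ℝ)| < 3 ^ m := by
      have e : ((a m * b (m + 1) - a (m + 1) * b m : ℤ) : ℝ) =
          ((a m : ℝ) - lam * b m) * b (m + 1) - ((a (m + 1) : ℝ) - lam * b (m + 1)) * b m := by
        push_cast; ring
      have hb0 : (0 : ℝ) < b m := by exact_mod_cast (hb1 m hm)
      have hb0' : (0 : ℝ) < b (m + 1) := by exact_mod_cast (hb1 (m + 1) (by omega))
      have hbQ1 : (b m : ℝ) < Q * 3 ^ m := by exact_mod_cast hbQ m hm
      have hbQ2 : (b (m + 1) : ℝ) < Q * 3 ^ (m + 1) := by exact_mod_cast hbQ (m + 1) (by omega)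
      rw [e]
      calc |((a m : ℝ) - lam * b m) * b (m + 1) - ((a (m + 1) : ℝ) - lam * b (m + 1)) * b m|
          ≤ |((a m : ℝ) - lam * b m) * b (m + 1)| + |((a (m + 1) : ℝ) - lam * b (m + 1)) * b m| :=
            abs_sub _ _
        _ = |(a m : ℝ) - lam * b m| * b (m + 1) + |(a (m + 1) : ℝ) - lam * b (m + 1)| * b m := by
            rw [abs_mul, abs_mul, abs_of_pos hb0, abs_of_pos hb0']
        _ ≤ 1 / (4 * (Q : ℝ) + 1) * (Q * 3 ^ (m + 1)) + 1 / (4 * (Q : ℝ) + 1) * (Q * 3 ^ m) := by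
            gcongr
            · exact (hlt m hm).le
            · exact (hlt (m + 1) (by omega)).le
        _ = 3 ^ m * (4 * Q / (4 * Q + 1)) := by field_simp; ring
        _ < 3 ^ m * 1 := by
            gcongr
            rw [div_lt_one (by positivity)]; linarith
        _ = 3 ^ m := mul_one _
    have h3 : |a m * b (m + 1) - a (m + 1) * b m| < 3 ^ m := by exact_mod_cast h2
    have h4 := Int.eq_zero_of_abs_lt_dvd h1 h3
    linarith
  have hall : ∀ k, a (M + k) * b M = a M * b (M + k) := by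
    intro k
    induction k with
    | zero => rfl
    | succ k ih =>
      have h1 := hpar (M + k) (by omega)
      have h2 : b (M + k) ≠ 0 := by have := hb1 (M + k) (by omega); omega
      apply mul_left_cancel₀ h2
      rw [← add_assoc]
      linear_combination b (M + k + 1) * ih - b M * h1
  have hM0 : (0 : ℝ) < b M := by exact_mod_cast (hb1 M (le_refl _))
  have hne : (a M : ℝ) - lam * b M ≠ 0 := by
    have h1 : Irrational (lam * b M) := hl.mul_intCast (by have := hb1 M (le_refl _); omega)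
    have h2 := h1.intCast_sub (a M)
    exact h2.ne_zero
  obtain ⟨K, hK⟩ := exists_nat_gt ((b M : ℝ) / |(a M : ℝ) - lam * b M|)
  have hbK : ∀ k, b (M + k) ≤ K := by
    intro k
    have h1 : |(a (M + k) : ℝ) - lam * b (M + k)| * b M = |(a M : ℝ) - lam * b M| * b (M + k) := by
      have hb0 : (0 : ℝ) < b (M + k) := by exact_mod_cast (hb1 (M + k) (by omega))
      have e1 : |(a (M + k) : ℝ) - lam * b (M + k)| * b M =
          |((a (M + k) : ℝ) - lam * b (M + k)) * b M| := by rw [abs_mul, abs_of_pos hM0]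
      have e2 : |(a M : ℝ) - lam * b M| * b (M + k) =
          |((a M : ℝ) - lam * b M) * b (M + k)| := by rw [abs_mul, abs_of_pos hb0]
      rw [e1, e2]
      congr 1
      have := hall k
      have h2 : (a (M + k) : ℝ) * b M = a M * b (M + k) := by exact_mod_cast this
      linear_combination h2
    have h2 : |(a (M + k) : ℝ) - lam * b (M + k)| ≤ 1 := by
      refine (hlt (M + k) (by omega)).le.trans ?_
      rw [div_le_one (by positivity)]; linarith
    have hpos : 0 < |(a M : ℝ) - lam * b M| := abs_pos.mpr hne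
    have h3 : (b (M + k) : ℝ) ≤ K := by
      have h4 : |(a M : ℝ) - lam * b M| * b (M + k) ≤ b M := by
        rw [← h1]; exact mul_le_of_le_one_left hM0.le h2
      have h5 : (b (M + k) : ℝ) ≤ b M / |(a M : ℝ) - lam * b M| := by
        rw [le_div_iff₀ hpos]; linarith
      linarith
    exact_mod_cast h3
  have haM : 1 ≤ a M := by
    have h1 := hlt M (le_refl _)
    have h2 : 1 / (4 * (Q : ℝ) + 1) ≤ 1 := by rw [div_le_one (by positivity)]; linarith
    have h3 := (abs_lt.mp h1).1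
    have h4 : (1 : ℝ) ≤ b M := by exact_mod_cast (hb1 M (le_refl _))
    have h5 : (0 : ℝ) < a M := by nlinarith
    have h6 : 0 < a M := by exact_mod_cast h5
    omega
  obtain ⟨m', hm'⟩ := hirr (a M) (b M) haM (hb1 M (le_refl _))
  apply hm'
  -- work at the level `m = M + (m' + K)`
  obtain ⟨k, hk⟩ : ∃ k, k = m' + K := ⟨_, rfl⟩
  have h1 : (3 : ℤ) ^ (m' + K) ∣ b (M + k) * (a M - t (M + k) * b M) := by
    have h2 := hd (M + k) (by omega)
    have h3 : (3 : ℤ) ^ (m' + K) ∣ (a (M + k) - t (M + k) * b (M + k)) * b M := by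
      apply Dvd.dvd.mul_right
      exact (pow_dvd_pow 3 (by omega)).trans h2
    have e : b (M + k) * (a M - t (M + k) * b M) =
        (a (M + k) - t (M + k) * b (M + k)) * b M := by
      linear_combination -(hall k)
    rw [e]; exact h3
  have h2 : (3 : ℤ) ^ m' ∣ a M - t (M + k) * b M := by
    obtain ⟨x, hx⟩ : ∃ x : ℕ, b (M + k) = x := ⟨(b (M + k)).toNat, by
      have := hb1 (M + k) (by omega); omega⟩
    have hx0 : x ≠ 0 := by
      have := hb1 (M + k) (by omega); omega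
    obtain ⟨i, x', hx', hxx⟩ := Nat.exists_eq_pow_mul_and_not_dvd hx0 3 (by norm_num)
    have hxK : x ≤ K := by have := hbK k; omega
    have hiK : i ≤ K := by
      have h3 : 3 ^ i ≤ x := by
        rw [hxx]; exact Nat.le_mul_of_pos_right _ (Nat.pos_of_ne_zero (by rintro rfl; simp at hx'))
      have h4 : i < 3 ^ i := Nat.lt_pow_self (by norm_num)
      omega
    rw [hx, hxx] at h1
    push_cast at h1
    have h5 : (3 : ℤ) ^ (m' + K - i) ∣ (x' : ℤ) * (a M - t (M + k) * b M) := by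
      have h6 : (3 : ℤ) ^ (m' + K) = 3 ^ i * 3 ^ (m' + K - i) := by
        rw [← pow_add]; congr 1; omega
      rw [h6, mul_assoc] at h1
      exact Int.dvd_of_mul_dvd_mul_left (by positivity) h1
    have h7 : IsCoprime ((3 : ℤ) ^ (m' + K - i)) (x' : ℤ) := by
      apply IsCoprime.pow_left
      have : Nat.Coprime 3 x' := (Nat.Prime.coprime_iff_not_dvd Nat.prime_three).mpr hx'
      exact_mod_cast Nat.isCoprime_iff_coprime.mpr this
    exact (pow_dvd_pow 3 (by omega)).trans (h7.dvd_of_dvd_mul_left h5)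
  have h3 : ∀ j, (3 : ℤ) ^ m' ∣ t (m' + j) - t m' := by
    intro j
    induction j with
    | zero => simp
    | succ j ih =>
      have h4 : (3 : ℤ) ^ m' ∣ t (m' + j + 1) - t (m' + j) :=
        (pow_dvd_pow 3 (by omega)).trans (ht (m' + j))
      have e : t (m' + (j + 1)) - t m' = (t (m' + j + 1) - t (m' + j)) + (t (m' + j) - t m') := by
        rw [← add_assoc]; ring
      rw [e]; exact dvd_add h4 ih
  have h4 := h3 (M + K)
  have e1 : m' + (M + K) = M + k := by omega
  rw [e1] at h4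
  have e : a M - t m' * b M = (a M - t (M + k) * b M) + (t (M + k) - t m') * b M := by ring
  rw [e]
  exact dvd_add h2 (Dvd.dvd.mul_right h4 _)

/-- inhomogeneous approximation in the lattices of good level -/
theorem inhom_good {lam : ℝ} {t : ℤ} {Q m : ℕ} (hQ : 1 ≤ Q)
    (h : ∀ a b : ℤ, 1 ≤ b → b < Q * 3 ^ m → (3 : ℤ) ^ m ∣ a - t * b →
      1 / (4 * (Q : ℝ) + 1) ≤ |(a : ℝ) - lam * b|) (s : ℤ) (β : ℝ) :
    ∃ a b : ℤ, Q * 3 ^ m ≤ b ∧ b ≤ 2 * ((4 * Q + 1) * 3 ^ m) ∧ (3 : ℤ) ^ m ∣ a - t * b - s ∧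
      |(a : ℝ) - lam * b - β| < 2 / Q := by
  have hQ1 : (1 : ℝ) ≤ Q := by exact_mod_cast hQ
  have h3 : (0 : ℝ) < 3 ^ m := by positivity
  obtain ⟨ρ, hρ⟩ : ∃ ρ : ℝ, ρ = (lam - t) / 3 ^ m := ⟨_, rfl⟩
  obtain ⟨q, hq1, hq2⟩ := Real.exists_rat_abs_sub_le_and_den_le ρ
    (n := (4 * Q + 1) * 3 ^ m) (by positivity)
  have hD : (0 : ℝ) < q.den := by exact_mod_cast q.pos
  have hq2' : (q.den : ℝ) ≤ (4 * Q + 1) * 3 ^ m := by exact_mod_cast hq2
  have hqd : (q : ℝ) * q.den = q.num := by exact_mod_cast Rat.mul_den_eq_num q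
  push_cast at hq1
  have hDQ : (Q : ℤ) * 3 ^ m ≤ q.den := by
    by_contra hcon
    push Not at hcon
    have h4 := h (t * q.den + 3 ^ m * q.num) q.den (by have := q.pos; omega) hcon
      ⟨q.num, by ring⟩
    have e : (((t * q.den + 3 ^ m * q.num : ℤ)) : ℝ) - lam * ((q.den : ℤ) : ℝ) =
        -(3 ^ m * q.den * (ρ - q)) := by
      have h5 : (3 : ℝ) ^ m * ρ = lam - t := by rw [hρ]; field_simp
      push_cast
      rw [← hqd]
      linear_combination (q.den : ℝ) * h5
    rw [e, abs_neg, abs_mul, abs_of_pos (by positivity)] at h4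
    have h6 : 3 ^ m * (q.den : ℝ) * |ρ - q| ≤ 3 ^ m * q.den *
        (1 / (((4 * (Q : ℝ) + 1) * 3 ^ m + 1) * q.den)) := by gcongr
    have h7 : 3 ^ m * (q.den : ℝ) * (1 / (((4 * (Q : ℝ) + 1) * 3 ^ m + 1) * q.den)) <
        1 / (4 * (Q : ℝ) + 1) := by
      have e2 : 3 ^ m * (q.den : ℝ) * (1 / (((4 * (Q : ℝ) + 1) * 3 ^ m + 1) * q.den)) =
          3 ^ m / ((4 * (Q : ℝ) + 1) * 3 ^ m + 1) := by field_simp
      rw [e2, div_lt_div_iff₀ (by positivity) (by positivity)]
      nlinarith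
    linarith
  have hq3 : |ρ - q| < 1 / (q.den : ℝ) ^ 2 := by
    refine lt_of_le_of_lt hq1 ?_
    apply one_div_lt_one_div_of_lt (by positivity)
    rw [sq]
    apply mul_lt_mul_of_pos_right _ hD
    linarith
  obtain ⟨n₁, n₂, hn0, hn1, hn2⟩ := DP.inhom hq3 (-((s - β) / 3 ^ m) + q.den * ρ)
  refine ⟨t * (q.den + n₂) + s - 3 ^ m * n₁, q.den + n₂, by omega, ?_, ⟨-n₁, by ring⟩, ?_⟩
  · have : (q.den : ℤ) ≤ (4 * Q + 1) * 3 ^ m := by exact_mod_cast hq2
    omega
  · have e : (((t * (q.den + n₂) + s - 3 ^ m * n₁ : ℤ)) : ℝ) -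
        lam * ((q.den + n₂ : ℤ) : ℝ) - β =
        -(3 ^ m * (-((s - β) / 3 ^ m) + q.den * ρ + n₁ + n₂ * ρ)) := by
      have h5 : (3 : ℝ) ^ m * ρ = lam - t := by rw [hρ]; field_simp
      have h6 : (3 : ℝ) ^ m * ((s - β) / 3 ^ m) = s - β := by field_simp
      push_cast
      linear_combination ((q.den : ℝ) + n₂) * h5 - h6
    rw [e, abs_neg, abs_mul, abs_of_pos h3]
    have h8 : (Q : ℝ) * 3 ^ m ≤ q.den := by exact_mod_cast hDQ
    calc 3 ^ m * |-((s - β) / 3 ^ m) + q.den * ρ + n₁ + n₂ * ρ| < 3 ^ m * (2 / q.den) := by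
          gcongr
      _ ≤ 3 ^ m * (2 / (Q * 3 ^ m)) := by gcongr
      _ = 2 / Q := by field_simp

end Pool.Agent.U64.SZ
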