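import Pool.Agent.U64.SZ.Angle
import Pool.Agent.U64.SZ.Curve

/-!
# Negative discriminant: `j ≤ 1728`
-/

set_option autoImplicit false

open Real

namespace Pool.Agent.U64.SZ

/-- the curve `W` has coprime invariants, a point `(0, 0)` of order two, `j` near `j₀` and
`c N ^ 6 (log |Δ|) ^ 6 ≤ |Δ|` -/
def Good (j₀ δ c X : ℝ) (W : WeierstrassCurve ℤ) : Prop :=
  W.Δ ≠ 0 ∧ IsCoprime W.c₄ W.Δ ∧ W.b₆ = 0 ∧ |(W.c₄ : ℝ) ^ 3 / W.Δ - j₀| < δ ∧ X ≤ |(W.Δ : ℝ)| ∧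
    c * ((rd W : ℝ) ^ 6 * log |(W.Δ : ℝ)| ^ 6) ≤ |(W.Δ : ℝ)|

theorem crv_b6 (a B : ℤ) : (crv a B).b₆ = 0 := by
  simp [crv, WeierstrassCurve.b₆]

noncomputable def f (v : ℝ) : ℝ := 64 * (4 * v - 1) ^ 3 / v

theorem f_cont {v : ℝ} (hv : 0 < v) : ContinuousAt f v := by
  unfold f
  exact ContinuousAt.div (by fun_prop) continuousAt_id hv.ne'

theorem f_surj {j₀ : ℝ} (hj : j₀ ≤ 1728) : ∃ v, 0 < v ∧ v ≤ 1 ∧ f v = j₀ := by
  obtain ⟨v₁, hv₁⟩ : ∃ v₁ : ℝ, v₁ = min (1 / 8) (8 / (|j₀| + 1)) := ⟨_, rfl⟩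
  have hj0 : 0 ≤ |j₀| := abs_nonneg _
  have h0 : 0 < v₁ := by rw [hv₁]; positivity
  have h8 : v₁ ≤ 1 / 8 := by rw [hv₁]; exact min_le_left _ _
  have h9 : v₁ * (|j₀| + 1) ≤ 8 := by
    have : v₁ ≤ 8 / (|j₀| + 1) := by rw [hv₁]; exact min_le_right _ _
    rwa [le_div_iff₀ (by positivity)] at this
  have h1 : f v₁ ≤ j₀ := by
    unfold f
    rw [div_le_iff₀ h0]
    have h2 : (4 * v₁ - 1) ^ 3 ≤ -(1 / 8) := by
      have h3 : (1 / 2 : ℝ) ^ 3 ≤ (1 - 4 * v₁) ^ 3 := by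
        apply pow_le_pow_left₀ (by norm_num); linarith
      have h4 : (4 * v₁ - 1) ^ 3 = -(1 - 4 * v₁) ^ 3 := by ring
      rw [h4]; linarith
    have h5 : -(|j₀| * v₁) ≤ j₀ * v₁ := by
      have := neg_abs_le j₀
      nlinarith
    nlinarith
  have h2 : j₀ ≤ f 1 := by unfold f; norm_num; exact hj
  have hc : ContinuousOn f (Set.Icc v₁ 1) := fun v hv =>
    (f_cont (lt_of_lt_of_le h0 hv.1)).continuousWithinAt
  obtain ⟨v, hv, hv'⟩ := intermediate_value_Icc (by linarith) hc ⟨h1, h2⟩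
  exact ⟨v, lt_of_lt_of_le h0 hv.1, hv.2, hv'⟩

theorem neg_case {j₀ : ℝ} (hj : j₀ ≤ 1728) {δ : ℝ} (hδ : 0 < δ) :
    ∃ c : ℝ, 0 < c ∧ ∀ X : ℝ, ∃ W, Good j₀ δ c X W := by
  obtain ⟨v₀, hv0, hv1, hfv⟩ := f_surj hj
  obtain ⟨ε, hε, hcont⟩ := Metric.continuousAt_iff.mp (f_cont hv0) δ hδ
  obtain ⟨C, hC⟩ := exists_w hv0.le hv1 hε
  obtain ⟨K, hK⟩ : ∃ K : ℝ, K = log 64 + 3 * C * log 49393 := ⟨_, rfl⟩
  have hl64 : 0 < log 64 := Real.log_pos (by norm_num)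
  have hlP : 0 < log 49393 := Real.log_pos (by norm_num)
  have hK0 : 0 < K := by rw [hK]; positivity
  refine ⟨1 / (12 * (K * 345751) ^ 6), by positivity, fun X => ?_⟩
  obtain ⟨M, hM⟩ := pow_unbounded_of_one_lt X (by norm_num : (1 : ℝ) < 3)
  obtain ⟨m, n, hMm, hn, hd, hv⟩ := hC M
  obtain ⟨A, hA⟩ : ∃ A, A = (w n).re := ⟨_, rfl⟩
  obtain ⟨d, hd'⟩ : ∃ d, d = (w n).im := ⟨_, rfl⟩
  obtain ⟨B, hB⟩ : ∃ B : ℤ, B = 49393 ^ n := ⟨_, rfl⟩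
  have hnorm : A ^ 2 + 7 * d ^ 2 = 64 * B := by rw [hA, hd', hB]; exact norm_w n
  have hd0 : d ≠ 0 := by rw [hd']; exact im_ne n
  have hcop : IsCoprime A B := by rw [hA, hB]; exact coprime_w n
  have hB0 : 0 < B := by rw [hB]; positivity
  obtain ⟨k, hk⟩ := re_mod n
  rw [← hA] at hk
  have hA4 : 4 * (3 * k) + 1 = A := by rw [hk]; ring
  rw [← hd'] at hd hv
  have hΔ : (crv (3 * k) B).Δ = -(7 * B ^ 2 * d ^ 2) := by
    rw [crv_disc, hA4]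
    linear_combination (B ^ 2) * hnorm
  have hc4 : (crv (3 * k) B).c₄ = A ^ 2 - 48 * B := by rw [crv_c4, hA4]
  have hd1 : (1 : ℝ) ≤ (d : ℝ) ^ 2 := by
    have : (1 : ℤ) ≤ d ^ 2 := by have := sq_pos_of_ne_zero hd0; omega
    exact_mod_cast this
  have hB1 : (1 : ℝ) ≤ (B : ℝ) := by exact_mod_cast hB0
  have hnormR : (A : ℝ) ^ 2 + 7 * (d : ℝ) ^ 2 = 64 * B := by exact_mod_cast hnorm
  have hDR : |((crv (3 * k) B).Δ : ℝ)| = 7 * (B : ℝ) ^ 2 * (d : ℝ) ^ 2 := by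
    rw [hΔ]; push_cast; rw [abs_neg, abs_of_nonneg (by positivity)]
  have hBR : (B : ℝ) = 49393 ^ n := by rw [hB]; push_cast; rfl
  have hdle : 7 * (d : ℝ) ^ 2 ≤ 64 * B := by nlinarith [sq_nonneg (A : ℝ)]
  have hD1 : 1 ≤ |((crv (3 * k) B).Δ : ℝ)| := by
    rw [hDR]
    have : (1 : ℝ) ≤ (B : ℝ) ^ 2 := one_le_pow₀ hB1
    nlinarith
  refine ⟨crv (3 * k) B, ?_, crv_coprime (by rw [hA4]; exact hcop), crv_b6 _ _, ?_, ?_, ?_⟩
  · rw [hΔ]; exact neg_ne_zero.mpr (by positivity)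
  · have hj : ((crv (3 * k) B).c₄ : ℝ) ^ 3 / (crv (3 * k) B).Δ =
        f (7 * (d : ℝ) ^ 2 / (64 * 49393 ^ n)) := by
      rw [hc4, hΔ, f, ← hBR]
      push_cast
      have e1 : (A : ℝ) ^ 2 = 64 * B - 7 * (d : ℝ) ^ 2 := by linarith
      have hd2 : (d : ℝ) ≠ 0 := by exact_mod_cast hd0
      have hB2 : (B : ℝ) ≠ 0 := by positivity
      rw [e1]
      field_simp
      ring
    rw [hj, ← hfv, ← Real.dist_eq]
    exact hcont (by rw [Real.dist_eq]; exact hv)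
  · have h1 : (3 : ℤ) ^ (m + 1) ≤ |d| := Int.le_of_dvd (abs_pos.mpr hd0) ((dvd_abs _ _).mpr hd)
    have h2 : (3 : ℝ) ^ (m + 1) ≤ |(d : ℝ)| := by exact_mod_cast h1
    have h3 : (3 : ℝ) ^ M ≤ 3 ^ (m + 1) := pow_le_pow_right₀ (by norm_num) (by omega)
    have h4 : |(d : ℝ)| ≤ (d : ℝ) ^ 2 := by
      have h5 : (1 : ℝ) ≤ |(d : ℝ)| := le_trans (one_le_pow₀ (by norm_num)) h2
      rw [← sq_abs]; nlinarith
    rw [hDR]
    have h6 : (1 : ℝ) ≤ (B : ℝ) ^ 2 := one_le_pow₀ hB1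
    have h7 : (d : ℝ) ^ 2 ≤ 7 * (B : ℝ) ^ 2 * (d : ℝ) ^ 2 := by nlinarith
    linarith
  · refine bound (m := m) (e := d) (by positivity) (by norm_num) hK0 hD1 ?_ ?_ (by norm_num) ?_
    · have h1 := rd_le (W := crv (3 * k) B) (T := 345751) (m := m) (e := d) (by norm_num) hd0 hd
        (by
          intro p hp hpd
          have hpz : Prime (p : ℤ) := Nat.prime_iff_prime_int.mp hp
          rw [hΔ, dvd_neg] at hpd
          rcases hpz.dvd_mul.mp hpd with h | h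
          · apply Dvd.dvd.mul_right
            rcases hpz.dvd_mul.mp h with h | h
            · exact h.trans ⟨49393, by norm_num⟩
            · have h2 := hpz.dvd_of_dvd_pow h
              rw [hB] at h2
              exact (hpz.dvd_of_dvd_pow h2).trans ⟨7, by norm_num⟩
          · exact Dvd.dvd.mul_left (hpz.dvd_of_dvd_pow h) _)
      have h2 : ((rd (crv (3 * k) B) * 3 ^ m : ℕ) : ℝ) ≤ ((345751 * d.natAbs : ℕ) : ℝ) := by
        exact_mod_cast h1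
      push_cast at h2
      rw [Nat.cast_natAbs] at h2
      push_cast at h2
      exact h2
    · rw [hDR]
      have h1 : 7 * (B : ℝ) ^ 2 * (d : ℝ) ^ 2 ≤ 64 * (49393 ^ n) ^ 3 := by
        rw [← hBR]
        nlinarith [sq_nonneg (B : ℝ)]
      have h2 : log (7 * (B : ℝ) ^ 2 * (d : ℝ) ^ 2) ≤ log 64 + 3 * (n * log 49393) := by
        calc log (7 * (B : ℝ) ^ 2 * (d : ℝ) ^ 2) ≤ log (64 * (49393 ^ n) ^ 3) :=
              Real.log_le_log (by rw [hDR] at hD1; linarith) h1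
          _ = log 64 + 3 * (n * log 49393) := by
              rw [Real.log_mul (by norm_num) (by positivity), Real.log_pow, Real.log_pow]
              push_cast; ring
      refine h2.trans ?_
      rw [hK]
      have h3 : (n : ℝ) ≤ C * 3 ^ m := by exact_mod_cast hn
      have h4 : (1 : ℝ) ≤ 3 ^ m := one_le_pow₀ (by norm_num)
      calc log 64 + 3 * (n * log 49393) ≤ log 64 * 3 ^ m + 3 * ((C * 3 ^ m) * log 49393) := by
            gcongr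
            exact le_mul_of_one_le_right hl64.le h4
        _ = (log 64 + 3 * C * log 49393) * 3 ^ m := by ring
    · rw [hDR]
      have h1 : (49 : ℝ) * ((d : ℝ) ^ 2) ^ 2 ≤ (64 * (B : ℝ)) ^ 2 := by
        calc (49 : ℝ) * ((d : ℝ) ^ 2) ^ 2 = (7 * (d : ℝ) ^ 2) ^ 2 := by ring
          _ ≤ (64 * (B : ℝ)) ^ 2 := by gcongr
      have h2 : (49 : ℝ) * ((d : ℝ) ^ 2) ^ 2 * (d : ℝ) ^ 2 ≤ (64 * (B : ℝ)) ^ 2 * (d : ℝ) ^ 2 := by
        gcongr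
      nlinarith [sq_nonneg ((B : ℝ) * d)]

end Pool.Agent.U64.SZ
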