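import Mathlib

/-!
# Rotations by `3 ^ m ξ`

For an irrational `ξ` there are infinitely many `m` such that every real is approximated modulo
`ℤ` by a bounded multiple of `3 ^ m ξ`.
-/

set_option autoImplicit false

namespace Pool.Agent.U64.SZ

/-- for infinitely many `m` the number `3 ^ m ξ` is not close to a rational number with a small
denominator -/
theorem grow {ξ : ℝ} (hξ : Irrational ξ) {Q : ℕ} (hQ : 1 ≤ Q) (M : ℕ) :
    ∃ m, M ≤ m ∧ ∀ q : ℕ, 1 ≤ q → q ≤ Q → ∀ p : ℤ,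
      1 / (6 * (Q : ℝ) ^ 2) ≤ |(q : ℝ) * (3 ^ m * ξ) - p| := by
  have hQ1 : (1 : ℝ) ≤ Q := by exact_mod_cast hQ
  by_cases hM : ∀ q : ℕ, 1 ≤ q → q ≤ Q → ∀ p : ℤ,
      1 / (6 * (Q : ℝ) ^ 2) ≤ |(q : ℝ) * (3 ^ M * ξ) - p|
  · exact ⟨M, le_refl _, hM⟩
  push Not at hM
  obtain ⟨q, hq1, hqQ, p, hp⟩ := hM
  have hq1' : (1 : ℝ) ≤ q := by exact_mod_cast hq1
  have hqQ' : (q : ℝ) ≤ Q := by exact_mod_cast hqQ
  obtain ⟨ε, hε⟩ : ∃ ε, ε = |(q : ℝ) * (3 ^ M * ξ) - p| := ⟨_, rfl⟩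
  have hirr : Irrational ((q : ℝ) * (3 ^ M * ξ) - p) := by
    have h1 : Irrational (((q * 3 ^ M : ℕ) : ℝ) * ξ) :=
      hξ.natCast_mul (by positivity)
    have h2 := h1.sub_intCast p
    have e : (q : ℝ) * (3 ^ M * ξ) - p = ((q * 3 ^ M : ℕ) : ℝ) * ξ - p := by
      push_cast; ring
    rw [e]; exact h2
  have hε0 : 0 < ε := by
    rw [hε]; exact abs_pos.mpr hirr.ne_zero
  rw [← hε] at hp
  have hc : 1 / (6 * (Q : ℝ) ^ 2) ≤ 1 / (2 * Q) := by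
    apply one_div_le_one_div_of_le (by positivity)
    nlinarith
  obtain ⟨k, hk1, hk2⟩ := exists_nat_pow_near (x := (1 / (2 * (Q : ℝ))) / ε) (y := (3 : ℝ))
    (by rw [le_div_iff₀ hε0]; linarith) (by norm_num)
  rw [le_div_iff₀ hε0] at hk1
  rw [div_lt_iff₀ hε0] at hk2
  refine ⟨M + k, by omega, ?_⟩
  intro q' hq1'' hq'Q p'
  by_contra hcon
  push Not at hcon
  have hq'1 : (1 : ℝ) ≤ q' := by exact_mod_cast hq1''
  have hq'Q' : (q' : ℝ) ≤ Q := by exact_mod_cast hq'Q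
  obtain ⟨x, hx⟩ : ∃ x : ℝ, x = (q' : ℝ) * (3 ^ (M + k) * ξ) - p' := ⟨_, rfl⟩
  obtain ⟨y, hy⟩ : ∃ y : ℝ, y = (q : ℝ) * (3 ^ (M + k) * ξ) - ((3 ^ k * p : ℤ) : ℝ) := ⟨_, rfl⟩
  have hy2 : |y| = 3 ^ k * ε := by
    rw [hε, ← abs_of_pos (by positivity : (0 : ℝ) < 3 ^ k), ← abs_mul, hy]
    congr 1
    push_cast
    rw [pow_add]
    ring
  rw [← hx] at hcon
  have hyu : |y| ≤ 1 / (2 * Q) := by rw [hy2]; exact hk1
  have hyl : 1 / (6 * Q) < |y| := by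
    rw [hy2]
    have e : 1 / (6 * (Q : ℝ)) = (1 / (2 * Q)) / 3 := by field_simp; ring
    rw [e, div_lt_iff₀ (by norm_num)]
    calc 1 / (2 * (Q : ℝ)) < 3 ^ (k + 1) * ε := hk2
      _ = 3 ^ k * ε * 3 := by ring
  -- the integer `q x - q' y`
  have hint : (q : ℝ) * x - q' * y = ((q' * (3 ^ k * p) - q * p' : ℤ) : ℝ) := by
    rw [hx, hy]; push_cast; ring
  have hxs : (q : ℝ) * |x| < 1 / (6 * Q) := by
    calc (q : ℝ) * |x| ≤ Q * |x| := by gcongr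
      _ < Q * (1 / (6 * (Q : ℝ) ^ 2)) := by gcongr
      _ = 1 / (6 * Q) := by field_simp
  have h6 : 1 / (6 * (Q : ℝ)) ≤ 1 / 6 := by
    apply one_div_le_one_div_of_le (by norm_num); nlinarith
  have hys : (q' : ℝ) * |y| ≤ 1 / 2 := by
    calc (q' : ℝ) * |y| ≤ Q * (1 / (2 * Q)) := by gcongr
      _ = 1 / 2 := by field_simp
  have habs : |((q' * (3 ^ k * p) - q * p' : ℤ) : ℝ)| < 1 := by
    rw [← hint]
    calc |(q : ℝ) * x - q' * y| ≤ |(q : ℝ) * x| + |q' * y| := abs_sub _ _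
      _ = q * |x| + q' * |y| := by
          rw [abs_mul, abs_mul, abs_of_pos (by linarith : (0 : ℝ) < q),
            abs_of_pos (by linarith : (0 : ℝ) < q')]
      _ < 1 := by linarith
  have hzero : (q' * (3 ^ k * p) - q * p' : ℤ) = 0 := by
    have h1 : |(q' * (3 ^ k * p) - q * p' : ℤ)| < 1 := by exact_mod_cast habs
    exact Int.abs_lt_one_iff.mp h1
  rw [hzero, Int.cast_zero] at hint
  have h7 : (q : ℝ) * |x| = q' * |y| := by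
    rw [← abs_of_pos (by linarith : (0 : ℝ) < q), ← abs_of_pos (by linarith : (0 : ℝ) < q'),
      ← abs_mul, ← abs_mul, sub_eq_zero.mp hint]
  have h8 : |y| ≤ q' * |y| := le_mul_of_one_le_left (abs_nonneg _) hq'1
  linarith

/-- bounded multiples of `η` cover the circle -/
theorem cover {η : ℝ} {Q : ℕ} (hQ : 1 ≤ Q)
    (h : ∀ q : ℕ, 1 ≤ q → q ≤ Q → ∀ p : ℤ, 1 / (6 * (Q : ℝ) ^ 2) ≤ |(q : ℝ) * η - p|) (β : ℝ) :
    ∃ n : ℕ, n ≤ 6 * Q ^ 3 ∧ ∃ p : ℤ, |(n : ℝ) * η - p - β| < 1 / Q := by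
  have hQ1 : (1 : ℝ) ≤ Q := by exact_mod_cast hQ
  obtain ⟨j, k, hk0, hkQ, hjk⟩ := Real.exists_int_int_abs_mul_sub_le η (show 0 < Q by omega)
  obtain ⟨q, rfl⟩ : ∃ q : ℕ, k = q := ⟨k.toNat, by omega⟩
  have hq1 : 1 ≤ q := by omega
  have hqQ : q ≤ Q := by omega
  have h1 := h q hq1 hqQ j
  obtain ⟨σ, hσ⟩ : ∃ σ : ℝ, σ = (q : ℝ) * η - j := ⟨_, rfl⟩
  have hcast : (((q : ℕ) : ℤ) : ℝ) = (q : ℝ) := by push_cast; rfl
  rw [hcast, ← hσ] at hjk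
  rw [← hσ] at h1
  have hσ1 : |σ| < 1 / Q := by
    refine hjk.trans_lt ?_
    apply one_div_lt_one_div_of_lt (by positivity); linarith
  have hσ0 : 0 < |σ| := lt_of_lt_of_le (by positivity) h1
  have hσne : σ ≠ 0 := abs_pos.mp hσ0
  -- choose a representative of `β` with the sign of `σ`
  obtain ⟨β', z, hz, hs, hb⟩ : ∃ (β' : ℝ) (z : ℤ), β' = β + z ∧ 0 ≤ β' / σ ∧ |β'| ≤ 1 := by
    rcases lt_or_gt_of_ne hσne with hneg | hpos
    · refine ⟨-Int.fract (-β), ⌊-β⌋, ?_, ?_, ?_⟩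
      · rw [Int.fract]; ring
      · exact div_nonneg_of_nonpos (by have := Int.fract_nonneg (-β); linarith) hneg.le
      · rw [abs_neg, abs_of_nonneg (Int.fract_nonneg _)]; exact (Int.fract_lt_one _).le
    · refine ⟨Int.fract β, -⌊β⌋, ?_, ?_, ?_⟩
      · rw [Int.fract]; push_cast; ring
      · exact div_nonneg (Int.fract_nonneg _) hpos.le
      · rw [abs_of_nonneg (Int.fract_nonneg _)]; exact (Int.fract_lt_one _).le
  obtain ⟨i, hi⟩ : ∃ i : ℕ, i = ⌊β' / σ⌋₊ := ⟨_, rfl⟩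
  have hi1 : (i : ℝ) ≤ β' / σ := by rw [hi]; exact Nat.floor_le hs
  have hi2 : β' / σ < i + 1 := by rw [hi]; exact Nat.lt_floor_add_one _
  have hile : (i : ℝ) ≤ 6 * Q ^ 2 := by
    calc (i : ℝ) ≤ β' / σ := hi1
      _ ≤ |β' / σ| := le_abs_self _
      _ = |β'| / |σ| := abs_div _ _
      _ ≤ 1 / (1 / (6 * (Q : ℝ) ^ 2)) := by gcongr
      _ = 6 * Q ^ 2 := by field_simp
  refine ⟨i * q, ?_, i * j + z, ?_⟩
  · have h2 : i ≤ 6 * Q ^ 2 := by exact_mod_cast hile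
    calc i * q ≤ (6 * Q ^ 2) * Q := Nat.mul_le_mul h2 hqQ
      _ = 6 * Q ^ 3 := by ring
  · have e : ((i * q : ℕ) : ℝ) * η - ((i * j + z : ℤ) : ℝ) - β = -((β' / σ - i) * σ) := by
      rw [sub_mul, div_mul_cancel₀ _ hσne, hz, hσ]; push_cast; ring
    rw [e, abs_neg, abs_mul]
    have h3 : |β' / σ - i| ≤ 1 := by rw [abs_le]; constructor <;> linarith
    calc |β' / σ - i| * |σ| ≤ 1 * |σ| := by gcongr
      _ < 1 / Q := by rw [one_mul]; exact hσ1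

/-- for infinitely many `m` bounded multiples of `3 ^ m ξ` come close to every real modulo `ℤ` -/
theorem rot {ξ : ℝ} (hξ : Irrational ξ) {δ : ℝ} (hδ : 0 < δ) :
    ∃ C : ℕ, ∀ M : ℕ, ∃ m, M ≤ m ∧ ∀ β : ℝ, ∃ n : ℕ, n ≤ C ∧ ∃ p : ℤ,
      |(n : ℝ) * (3 ^ m * ξ) - p - β| < δ := by
  obtain ⟨Q, hQ⟩ := exists_nat_gt (1 / δ)
  have hQ0 : (0 : ℝ) < Q := lt_trans (by positivity) hQ
  have hQ1 : 1 ≤ Q := by
    have : 0 < Q := by exact_mod_cast hQ0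
    omega
  refine ⟨6 * Q ^ 3, fun M => ?_⟩
  obtain ⟨m, hm, h⟩ := grow hξ hQ1 M
  refine ⟨m, hm, fun β => ?_⟩
  obtain ⟨n, hn, p, hp⟩ := cover hQ1 h β
  refine ⟨n, hn, p, hp.trans ?_⟩
  rw [div_lt_iff₀ hδ] at hQ
  rw [div_lt_iff₀ hQ0]; linarith

end Pool.Agent.U64.SZ
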