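import Pool.Agent.U64.SZ.Rot

/-!
# Powers of `1 + 84 √-7`

`w n = (1 - 3 √-7) (1 + 84 √-7) ^ n = A + d √-7`: `A` is coprime to the norm `49393` and congruent
to `1` modulo `4`, `d` is odd, there are `n` with `3 ^ (m + 1) ∣ d`, and the argument of `w n` can be
prescribed at the same time.
-/

set_option autoImplicit false

namespace Pool.Agent.U64.SZ

def ζ : ℤ√(-7) := ⟨1, 84⟩

def w (n : ℕ) : ℤ√(-7) := ⟨1, -3⟩ * ζ ^ n

theorem w_add (n k : ℕ) : w (n + k) = w n * ζ ^ k := by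
  rw [w, w, pow_add, mul_assoc]

theorem re_succ (n : ℕ) : (w (n + 1)).re = (w n).re - 588 * (w n).im := by
  rw [w_add, pow_one, Zsqrtd.re_mul]; simp [ζ]; ring

theorem im_succ (n : ℕ) : (w (n + 1)).im = (w n).im + 84 * (w n).re := by
  rw [w_add, pow_one, Zsqrtd.im_mul]; simp [ζ]; ring

theorem w_zero : (w 0).re = 1 ∧ (w 0).im = -3 := by
  constructor <;> simp [w]

theorem re_mod (n : ℕ) : ∃ k : ℤ, (w n).re = 1 + 12 * k := by
  induction n with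
  | zero => exact ⟨0, by rw [w_zero.1]; ring⟩
  | succ n ih =>
    obtain ⟨k, hk⟩ := ih
    exact ⟨k - 49 * (w n).im, by rw [re_succ, hk]; ring⟩

theorem im_mod (n : ℕ) : ∃ k : ℤ, (w n).im = -3 + 84 * k := by
  induction n with
  | zero => exact ⟨0, by rw [w_zero.2]; ring⟩
  | succ n ih =>
    obtain ⟨k, hk⟩ := ih
    exact ⟨k + (w n).re, by rw [im_succ, hk]; ring⟩

theorem im_ne (n : ℕ) : (w n).im ≠ 0 := by
  obtain ⟨k, hk⟩ := im_mod n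
  omega

theorem norm_w (n : ℕ) : (w n).re ^ 2 + 7 * (w n).im ^ 2 = 64 * 49393 ^ n := by
  have h : (w n).norm = 64 * 49393 ^ n := by
    have hz : ζ.norm = 49393 := by decide
    have h0 : (⟨1, -3⟩ : ℤ√(-7)).norm = 64 := by decide
    rw [w, Zsqrtd.norm_mul, h0]
    congr 1
    induction n with
    | zero => simp
    | succ n ih => rw [pow_succ, Zsqrtd.norm_mul, ih, hz, pow_succ]
  rw [← h, Zsqrtd.norm_def]; ring

/-- modulo `49393` one has `ζ ^ (n + 1) = 2 ^ n ζ` -/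
theorem zeta_mod (n : ℕ) : ∃ k : ℤ√(-7), ζ ^ (n + 1) = 2 ^ n * ζ + 49393 * k := by
  have h2 : ζ * ζ = 2 * ζ - 49393 := by decide
  induction n with
  | zero => exact ⟨0, by simp⟩
  | succ n ih =>
    obtain ⟨k, hk⟩ := ih
    refine ⟨k * ζ - 2 ^ n, ?_⟩
    rw [pow_succ, hk]
    linear_combination 2 ^ n * h2

theorem int_mul_im (a : ℤ) (k : ℤ√(-7)) : ((a : ℤ√(-7)) * k).im = a * k.im := by
  rw [Zsqrtd.im_mul]; simp

theorem int_mul_re (a : ℤ) (k : ℤ√(-7)) : ((a : ℤ√(-7)) * k).re = a * k.re := by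
  rw [Zsqrtd.re_mul]; simp

theorem zeta_im_ne (n : ℕ) : (ζ ^ (n + 1)).im ≠ 0 := by
  intro h
  obtain ⟨k, hk⟩ := zeta_mod n
  have h1 : (ζ ^ (n + 1)).im = 2 ^ n * 84 + 49393 * k.im := by
    have e1 : (2 : ℤ√(-7)) ^ n = ((2 ^ n : ℤ) : ℤ√(-7)) := by push_cast; rfl
    have e2 : (49393 : ℤ√(-7)) = ((49393 : ℤ) : ℤ√(-7)) := by push_cast; rfl
    rw [hk, Zsqrtd.im_add, e1, e2, int_mul_im, int_mul_im]; rfl
  rw [h] at h1
  have h2 : (49393 : ℤ) ∣ 2 ^ n * 84 := ⟨-k.im, by linarith⟩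
  have hc : IsCoprime (49393 : ℤ) (2 ^ n) := by
    apply IsCoprime.pow_right
    rw [Int.isCoprime_iff_gcd_eq_one]; decide
  have h3 : (49393 : ℤ) ∣ 84 := hc.dvd_of_dvd_mul_left h2
  omega

theorem coprime_w (n : ℕ) : IsCoprime (w n).re (49393 ^ n) := by
  rcases n with _ | n
  · rw [pow_zero]; exact isCoprime_one_right
  · apply IsCoprime.pow_right
    obtain ⟨k, hk⟩ := zeta_mod n
    have h1 : (w (n + 1)).re = 2 ^ n * 1765 + 49393 * ((⟨1, -3⟩ : ℤ√(-7)) * k).re := by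
      have e1 : (2 : ℤ√(-7)) ^ n = ((2 ^ n : ℤ) : ℤ√(-7)) := by push_cast; rfl
      have e2 : (49393 : ℤ√(-7)) = ((49393 : ℤ) : ℤ√(-7)) := by push_cast; rfl
      have e3 : w (n + 1) = ((2 ^ n : ℤ) : ℤ√(-7)) * (⟨1, -3⟩ * ζ) +
          ((49393 : ℤ) : ℤ√(-7)) * (⟨1, -3⟩ * k) := by
        rw [w, hk, e1, e2]; ring
      rw [e3, Zsqrtd.re_add, int_mul_re, int_mul_re]
      have e4 : ((⟨1, -3⟩ : ℤ√(-7)) * ζ).re = 1765 := by decide
      rw [e4]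
    rw [h1]
    have h2 : IsCoprime (2 ^ n * 1765 : ℤ) 49393 := by
      apply IsCoprime.mul_left
      · apply IsCoprime.pow_left
        rw [Int.isCoprime_iff_gcd_eq_one]; decide
      · rw [Int.isCoprime_iff_gcd_eq_one]; decide
    exact h2.add_mul_left_left _

/-- the shape of `ζ ^ 3 ^ k` modulo `3 ^ (k + 2)` -/
theorem zeta_pow (k : ℕ) : ∃ x y : ℤ, (ζ ^ 3 ^ k).re = 1 + 3 * x ∧
    (ζ ^ 3 ^ k).im = 3 ^ (k + 1) * (1 + 3 * y) := by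
  induction k with
  | zero => exact ⟨0, 9, by simp [ζ], by simp [ζ]⟩
  | succ k ih =>
    obtain ⟨x, y, hx, hy⟩ := ih
    have e : ζ ^ 3 ^ (k + 1) = (ζ ^ 3 ^ k) * (ζ ^ 3 ^ k) * (ζ ^ 3 ^ k) := by
      rw [← pow_add, ← pow_add]; congr 1; ring
    have hre : (ζ ^ 3 ^ (k + 1)).re = (1 + 3 * x) ^ 3 -
        21 * (1 + 3 * x) * (3 ^ (k + 1) * (1 + 3 * y)) ^ 2 := by
      rw [e]; simp only [Zsqrtd.re_mul, Zsqrtd.im_mul, hx, hy]; ring
    have him : (ζ ^ 3 ^ (k + 1)).im = 3 * (1 + 3 * x) ^ 2 * (3 ^ (k + 1) * (1 + 3 * y)) -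
        7 * (3 ^ (k + 1) * (1 + 3 * y)) ^ 3 := by
      rw [e]; simp only [Zsqrtd.re_mul, Zsqrtd.im_mul, hx, hy]; ring
    refine ⟨3 * x + 9 * x ^ 2 + 9 * x ^ 3 - x * 0 - 7 * (1 + 3 * x) * (3 ^ (k + 1) * (1 + 3 * y)) ^ 2,
      y + (1 + 3 * y) * (2 * x + 3 * x ^ 2) - 7 * 3 ^ (2 * k) * (1 + 3 * y) ^ 3, ?_, ?_⟩
    · rw [hre]; ring
    · rw [him]; ring

/-- multiplication by `ζ ^ 3 ^ k` keeps `3 ^ (k + 1) ∣ d` -/
theorem dvd_add (k n : ℕ) (h : (3 : ℤ) ^ (k + 1) ∣ (w n).im) (j : ℕ) :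
    (3 : ℤ) ^ (k + 1) ∣ (w (n + 3 ^ k * j)).im := by
  induction j with
  | zero => simpa using h
  | succ j ih =>
    obtain ⟨x, y, hx, hy⟩ := zeta_pow k
    have e : n + 3 ^ k * (j + 1) = (n + 3 ^ k * j) + 3 ^ k := by ring
    rw [e, w_add, Zsqrtd.im_mul, hx, hy]
    apply Dvd.dvd.add
    · exact Dvd.dvd.mul_left (Dvd.intro _ rfl) _
    · exact Dvd.dvd.mul_right ih _

/-- there is `n < 3 ^ k` with `3 ^ (k + 1) ∣ d` -/
theorem exists_dvd (k : ℕ) : ∃ n < 3 ^ k, (3 : ℤ) ^ (k + 1) ∣ (w n).im := by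
  induction k with
  | zero => exact ⟨0, by norm_num, by rw [w_zero.2]; norm_num⟩
  | succ k ih =>
    obtain ⟨n, hn, h⟩ := ih
    obtain ⟨e, he⟩ := h
    obtain ⟨x, y, hx, hy⟩ := zeta_pow k
    have key : ∀ m : ℕ, ∀ e : ℤ, (w m).im = 3 ^ (k + 1) * e →
        ∃ z : ℤ, (w (m + 3 ^ k)).im = 3 ^ (k + 1) * (e + 1 + 3 * z) := by
      intro m e he
      obtain ⟨r, hr⟩ := re_mod m
      refine ⟨e * x + y + 4 * r * (1 + 3 * y), ?_⟩
      rw [w_add, Zsqrtd.im_mul, hx, hy, he, hr]; ring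
    obtain ⟨z1, h1⟩ := key n e he
    obtain ⟨z2, h2⟩ := key _ _ h1
    have hp : (0 : ℕ) < 3 ^ k := by positivity
    have e0 : e % 3 = 0 ∨ e % 3 = 1 ∨ e % 3 = 2 := by omega
    rcases e0 with h0 | h0 | h0
    · refine ⟨n, by rw [pow_succ]; omega, ?_⟩
      rw [he, pow_succ (3 : ℤ) (k + 1)]
      exact mul_dvd_mul_left _ (by omega)
    · refine ⟨n + 3 ^ k + 3 ^ k, by rw [pow_succ]; omega, ?_⟩
      rw [h2, pow_succ (3 : ℤ) (k + 1)]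
      exact mul_dvd_mul_left _ (by omega)
    · refine ⟨n + 3 ^ k, by rw [pow_succ]; omega, ?_⟩
      rw [h1, pow_succ (3 : ℤ) (k + 1)]
      exact mul_dvd_mul_left _ (by omega)

end Pool.Agent.U64.SZ
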